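import Pool.Agent.TH17.Almost
import Pool.Agent.TH17.Exist

set_option autoImplicit false

/-!
# The function field analogue of Quillen's freeness conjecture fails for `GL₂`

Let `k` be a finite field with at least three elements, `K = k(t)` the function field of the
projective line over `k`, `P` a closed point of degree four and `A = 𝒪_{K,{P}}`. For every prime
number `l` (in particular for the prime divisors of `|k| - 1`) and all classes
`c₁ ∈ H^2(GL₂(A); 𝔽_l)`, `c₂ ∈ H^4(GL₂(A); 𝔽_l)` the module `H^•(GL₂(A); 𝔽_l)` over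
`𝔽_l[c₁, c₂]` is not free.
-/

open Polynomial IsDedekindDomain
open scoped MatrixGroups

namespace Pool.Agent.Results.MP_49a69b_al.DegreeFourPoint

open Pool.Agent.TH17.Coh Pool.Agent.TH17.FF

theorem exists_point (k : Type) [Field k] [Finite k] :
    ∃ P : HeightOneSpectrum k[X], Module.finrank k (k[X] ⧸ P.asIdeal) = 4 := by
  have := Fintype.ofFinite k
  obtain ⟨p, hp⟩ := CharP.exists k
  have hpp : Fact p.Prime := ⟨CharP.char_is_prime k p⟩
  let L := FiniteField.Extension k p 4
  have hL : Module.finrank k L = 4 := FiniteField.finrank_extension k p 4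
  obtain ⟨a, ha⟩ := Field.exists_primitive_element k L
  have hint : IsIntegral k a := Algebra.IsIntegral.isIntegral a
  have hirr := minpoly.irreducible hint
  have hdeg : (minpoly k a).natDegree = 4 := by
    have h := IntermediateField.adjoin.finrank hint
    rw [ha, IntermediateField.finrank_top', hL] at h
    exact h.symm
  refine ⟨⟨Ideal.span {minpoly k a}, (Ideal.span_singleton_prime hirr.ne_zero).2 hirr.prime, ?_⟩, ?_⟩
  · rw [Ne, Ideal.span_singleton_eq_bot]
    exact hirr.ne_zero
  · rw [finrank_quotient_span_eq_natDegree, hdeg]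

theorem exists_monic {k : Type} [Field k] (P : HeightOneSpectrum k[X]) :
    ∃ p : k[X], p.Monic ∧ P.asIdeal = Ideal.span {p} := by
  obtain ⟨g, hg⟩ := (IsPrincipalIdealRing.principal P.asIdeal).principal
  have hg0 : g ≠ 0 := by
    rintro rfl
    apply P.ne_bot
    rw [hg]
    simp
  refine ⟨g * C g.leadingCoeff⁻¹, monic_mul_leadingCoeff_inv hg0, ?_⟩
  rw [hg]
  change Ideal.span {g} = _
  rw [Ideal.span_singleton_eq_span_singleton]
  refine ⟨(Polynomial.isUnit_C.2 (isUnit_iff_ne_zero.2
    (inv_ne_zero (leadingCoeff_ne_zero.2 hg0)))).unit, rfl⟩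

/-- The polynomial `f ∈ 𝔽_l[X₀, X₁]` acts on the total cohomology `H^•(G; 𝔽_l)` as the map `T`. -/
def ActsAs {l : ℕ} {G : Type} [Group G]
    [Module (MvPolynomial (Fin 2) (ZMod l)) (TotalCohomology l G)]
    (f : MvPolynomial (Fin 2) (ZMod l)) (T : TotalCohomology l G → TotalCohomology l G) : Prop :=
  ∀ m : TotalCohomology l G, f • m = T m

/-- The polynomial ring `𝔽_l[X₀, X₁]` acts on the total cohomology `H^•(G; 𝔽_l)` in such a way that
the constants act as scalars, `X₀` as the cup product with the class of `c₁` and `X₁` as the cup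
product with the class of `c₂`. -/
def ActsByCup {l : ℕ} {G : Type} [Group G] (c₁ : Cocycle l G 2) (c₂ : Cocycle l G 4)
    [Module (MvPolynomial (Fin 2) (ZMod l)) (TotalCohomology l G)] : Prop :=
  (∀ a : ZMod l, ActsAs (l := l) (G := G) (MvPolynomial.C a) (fun m => a • m)) ∧
    ActsAs (MvPolynomial.X 0) (cupTotal c₁) ∧ ActsAs (MvPolynomial.X 1) (cupTotal c₂)

/-- `H^•(G; 𝔽_l)` is a free module over the polynomial ring `𝔽_l[c₁, c₂]`, which acts by cup
product with the classes `c₁ ∈ H^2(G; 𝔽_l)` and `c₂ ∈ H^4(G; 𝔽_l)`. -/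
def FreeOver {l : ℕ} {G : Type} [Group G] (c₁ : Cocycle l G 2) (c₂ : Cocycle l G 4) : Prop :=
  ∃ _ : Module (MvPolynomial (Fin 2) (ZMod l)) (TotalCohomology l G),
    ActsByCup c₁ c₂ ∧ Module.Free (MvPolynomial (Fin 2) (ZMod l)) (TotalCohomology l G)

/-- The group `GL₂(A)`, where `A` is the ring of the elements of `k(t)` which are regular outside the
closed point `P` of the projective line. -/
def GL2 (k : Type) [Field k] (P : HeightOneSpectrum k[X]) : Type :=
  GL (Fin 2) (OKS k {some P})

noncomputable instance instGroupGL2 (k : Type) [Field k] (P : HeightOneSpectrum k[X]) :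
    Group (GL2 k P) :=
  (Units.instGroup : Group (Matrix (Fin 2) (Fin 2) (OKS k {some P}))ˣ)

theorem not_freeOver {k : Type} [Field k] [Finite k] (l : ℕ) [Fact l.Prime]
    (hl : l ∣ Nat.card k - 1) (P : HeightOneSpectrum k[X])
    (hP : Module.finrank k (k[X] ⧸ P.asIdeal) = 4)
    (c₁ : Cocycle l (GL (Fin 2) (OKS k {some P})) 2)
    (c₂ : Cocycle l (GL (Fin 2) (OKS k {some P})) 4) : ¬ FreeOver c₁ c₂ := by
  rintro ⟨_, hact, hfree⟩
  obtain ⟨p, hm, hPp⟩ := exists_monic P
  have hdeg : p.natDegree = 4 := by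
    rw [hPp, finrank_quotient_span_eq_natDegree] at hP
    exact hP
  have hk : 3 ≤ Nat.card k := by
    have h1 : 1 < Nat.card k := Finite.one_lt_card
    have h2 := Nat.le_of_dvd (by omega) hl
    have h3 := (Fact.out : l.Prime).two_le
    omega
  obtain ⟨t, t', D⟩ := exists_loopData hk hm hdeg
  exact not_free (scal k P) (hQ t) (almost hPp hm.ne_zero t) (loopEl hPp hm.ne_zero D)
    (J_loop l hPp hm.ne_zero D) c₁ c₂ hact.1 hact.2.1 hact.2.2 hfree

/-- Let `k` be a finite field and `l` a prime number dividing `|k| - 1`. Then there are closed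
points of degree four on the projective line over `k`, and for every such point `P` and all classes
`c₁ ∈ H^2(GL₂(A); 𝔽_l)` and `c₂ ∈ H^4(GL₂(A); 𝔽_l)`, where `A` is the ring of the elements of
`k(t)` which are regular outside `P`, the total cohomology `H^•(GL₂(A); 𝔽_l)` is not a free module
over `𝔽_l[c₁, c₂]`. -/
theorem result (k : Type) [Field k] [Finite k] (l : ℕ) [Fact l.Prime] (hl : l ∣ Nat.card k - 1) :
    (∃ P : HeightOneSpectrum k[X], Module.finrank k (k[X] ⧸ P.asIdeal) = 4) ∧
    ∀ P : HeightOneSpectrum k[X], Module.finrank k (k[X] ⧸ P.asIdeal) = 4 →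
      ∀ (c₁ : Cocycle l (GL2 k P) 2) (c₂ : Cocycle l (GL2 k P) 4), ¬ FreeOver c₁ c₂ :=
  ⟨exists_point k, fun P hP c₁ c₂ => not_freeOver l hl P hP c₁ c₂⟩

end Pool.Agent.Results.MP_49a69b_al.DegreeFourPoint
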